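import Pool.Agent.E8helper39.AXD.Sol
import Pool.Agent.E8helper39.AX_B2
import Pool.Agent.E8helper64.AX.AX_C1

/-! Project AX: the apex coefficient vanishes for `d < KK - 9` (`N = 10`). -/

set_option autoImplicit false

namespace Pool.Agent.E8helper39.AXD

open Finset Polynomial
open Pool.Agent.E8helper80.AX
open Pool.Agent.E8helper57.AX (KK_bounds supp ph_high ph_low tc_zero factor)
open Pool.Agent.E8helper64.AX (zero_of_coeff cop1 cop2)
open Pool.Agent.E8helper39.AX (ph_pos0)

theorem core_zero {m N : ℕ} (κ : ℕ → ℕ) (d : ℕ → ℕ → ℚ)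
    (h1 : ∀ i ≤ N, ∃ r : ℚ[X], r.natDegree ≤ i ∧
      ∀ t ≤ N, d t i = ((1 - X) ^ (m - 2 * i) * r).coeff t)
    (h2 : ∀ t ≤ N, ∃ g : ℚ[X], g.natDegree ≤ t - 1 ∧
      ∀ i ≤ N, d t i = ((1 + X) ^ (κ t) * g).coeff i)
    (h0 : d 0 0 = 0) : ∀ i ≤ N, ∀ t ≤ N, d t i = 0 := by
  intro i
  induction i using Nat.strong_induction_on with
  | _ i ih =>
    intro hi
    have hsmall : ∀ t ≤ i, d t i = 0 := by
      intro t ht
      rcases Nat.eq_zero_or_pos i with h | hpos
      · subst h
        obtain rfl : t = 0 := by omega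
        exact h0
      · obtain ⟨g, hg, hgc⟩ := h2 t (by omega)
        have hg0 : g = 0 := by
          apply zero_of_coeff cop2 (κ t) i g
          · intro j hj
            rw [← hgc j (by omega)]
            exact ih j hj (by omega) t (by omega)
          · omega
        rw [hgc i hi, hg0, mul_zero, coeff_zero]
    obtain ⟨r, hr, hrc⟩ := h1 i hi
    have hr0 : r = 0 := by
      apply zero_of_coeff cop1 (m - 2 * i) (i + 1) r
      · intro t ht
        rw [← hrc t (by omega)]
        exact hsmall t (by omega)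
      · omega
    intro t ht
    rw [hrc t ht, hr0, mul_zero, coeff_zero]

theorem core_of_sol {m N : ℕ} (κ : ℕ → ℕ) (b b' : ℕ → ℕ → ℚ)
    (h1 : ∀ i ≤ N, ∃ r : ℚ[X], r.natDegree ≤ i ∧
      (∀ t ≤ N, b t i = ((1 - X) ^ (m - 2 * i) * r).coeff t) ∧ (i = N → r.eval 1 = 0))
    (h2 : ∀ t ≤ N, ∃ g : ℚ[X], g.natDegree ≤ t - 1 ∧
      ∀ i ≤ N, b t i = ((1 + X) ^ (κ t) * g).coeff i)
    (h1' : ∀ i ≤ N, ∃ r : ℚ[X], r.natDegree ≤ i ∧
      (∀ t ≤ N, b' t i = ((1 - X) ^ (m - 2 * i) * r).coeff t) ∧ (i = N → r.eval 1 ≠ 0))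
    (h2' : ∀ t ≤ N, ∃ g : ℚ[X], g.natDegree ≤ t - 1 ∧
      ∀ i ≤ N, b' t i = ((1 + X) ^ (κ t) * g).coeff i) :
    b 0 0 = 0 := by
  have hlin : ∀ (u r r' : ℚ[X]) (e t : ℕ), (u ^ e * (C (b' 0 0) * r - C (b 0 0) * r')).coeff t =
      b' 0 0 * (u ^ e * r).coeff t - b 0 0 * (u ^ e * r').coeff t := by
    intro u r r' e t
    rw [show u ^ e * (C (b' 0 0) * r - C (b 0 0) * r') =
      C (b' 0 0) * (u ^ e * r) - C (b 0 0) * (u ^ e * r') by ring, coeff_sub, coeff_C_mul,
      coeff_C_mul]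
  have hdeg : ∀ (r r' : ℚ[X]) (k : ℕ), r.natDegree ≤ k → r'.natDegree ≤ k →
      (C (b' 0 0) * r - C (b 0 0) * r').natDegree ≤ k := by
    intro r r' k hr hr'
    refine (natDegree_sub_le _ _).trans (max_le ?_ ?_)
    · exact (natDegree_C_mul_le _ _).trans hr
    · exact (natDegree_C_mul_le _ _).trans hr'
  have hd := core_zero (m := m) (N := N) κ
    (fun t i => b' 0 0 * b t i - b 0 0 * b' t i) (by
      intro i hi
      obtain ⟨r, hr, hrc, -⟩ := h1 i hi
      obtain ⟨r', hr', hrc', -⟩ := h1' i hi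
      refine ⟨C (b' 0 0) * r - C (b 0 0) * r', hdeg r r' i hr hr', ?_⟩
      intro t ht
      rw [hlin, ← hrc t ht, ← hrc' t ht]) (by
      intro t ht
      obtain ⟨g, hg, hgc⟩ := h2 t ht
      obtain ⟨g', hg', hgc'⟩ := h2' t ht
      refine ⟨C (b' 0 0) * g - C (b 0 0) * g', hdeg g g' (t - 1) hg hg', ?_⟩
      intro i hi
      rw [hlin, ← hgc i hi, ← hgc' i hi]) (by
      show b' 0 0 * b 0 0 - b 0 0 * b' 0 0 = 0
      ring)
  obtain ⟨r, hr, hrc, hre⟩ := h1 N le_rfl
  obtain ⟨r', hr', hrc', hre'⟩ := h1' N le_rfl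
  have hR : C (b' 0 0) * r - C (b 0 0) * r' = 0 := by
    apply zero_of_coeff cop1 (m - 2 * N) (N + 1)
    · intro t ht
      rw [hlin, ← hrc t (by omega), ← hrc' t (by omega)]
      exact hd N le_rfl t (by omega)
    · have := hdeg r r' N hr hr'
      omega
  have he := congrArg (eval 1) hR
  rw [eval_sub, eval_mul, eval_mul, eval_C, eval_C, hre rfl, mul_zero, zero_sub, eval_zero,
    neg_eq_zero] at he
  exact (mul_eq_zero.mp he).resolve_right (hre' rfl)

section
variable {h m : ℕ} {f : (ℤ × ℤ) →₀ ℚ}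

theorem wc_low (hd1 : KK * h - (KK + 1) * m < KK - 9)
    (hf : (↑f.support : Set (ℤ × ℤ)) ⊆ AB h)
    (hH : ∀ b < m, ∀ c : ℤ, ⌊KK * h - (KK + 1) * (b : ℝ)⌋ < c + 11 * ((m : ℤ) - b) →
      tc f c b = 0) {t : ℤ} {k : ℕ} (hk : (k : ℤ) < t) : wc f t k = 0 := by
  obtain ⟨k1, k2, k3⟩ := KK_bounds
  have h1 := ph_pos0 (by linarith) hf hH (c := t - k) (by omega)
  have h2 := ph_coeff f (t - k) k
  rw [h1, coeff_zero, sub_add_cancel] at h2
  exact h2.symm

theorem ph_deg (hd1 : KK * h - (KK + 1) * m < KK - 9)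
    (hf : (↑f.support : Set (ℤ × ℤ)) ⊆ AB h) {i : ℕ} (hi : i ≤ 10) :
    (ph f (-(i : ℤ))).natDegree ≤ m := by
  obtain ⟨k1, k2, k3⟩ := KK_bounds
  rw [natDegree_le_iff_coeff_eq_zero]
  intro k hk
  apply ph_high (fun f c k => ph_coeff f c k) hf
  have hk' : (m : ℝ) + 1 ≤ k := by exact_mod_cast hk
  have hi' : (i : ℝ) ≤ 10 := by exact_mod_cast hi
  push_cast
  nlinarith

theorem row (hd1 : KK * h - (KK + 1) * m < KK - 9)
    (hf : (↑f.support : Set (ℤ × ℤ)) ⊆ AB h)
    (hH : ∀ b < m, ∀ c : ℤ, ⌊KK * h - (KK + 1) * (b : ℝ)⌋ < c + 11 * ((m : ℤ) - b) →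
      tc f c b = 0) (hm : 20 ≤ m) {i : ℕ} (hi : i ≤ 10) :
    ∃ r : Polynomial ℚ, r.natDegree ≤ i ∧
      (∀ t : ℕ, t ≤ 10 → wc f (t : ℤ) (t + i) = ((1 - X) ^ (m - 2 * i) * r).coeff t) ∧
      (i = 10 → r.eval 1 = 0) := by
  obtain ⟨k1, k2, k3⟩ := KK_bounds
  have hcoef : ∀ (Q : ℚ[X]), ph f (-(i : ℤ)) = X ^ i * Q → ∀ t : ℕ,
      wc f (t : ℤ) (t + i) = Q.coeff t := by
    intro Q hQ t
    have h1 := ph_coeff f (-(i : ℤ)) (t + i)
    rw [hQ, coeff_X_pow_mul] at h1
    rw [h1]
    congr 1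
    push_cast
    ring
  have hlow : ∀ k < i, (ph f (-(i : ℤ))).coeff k = 0 := fun k hk =>
    ph_low (fun f c k => ph_coeff f c k) hf (by omega)
  have hdeg := ph_deg hd1 hf hi
  by_cases hiN : i = 10
  · subst hiN
    have htay : ∀ b < m - 19, (taylor 1 (ph f (-((10 : ℕ) : ℤ)))).coeff b = 0 := by
      intro b hb
      rw [ph_taylor]
      refine tc_zero hH (by omega) ?_
      have hb2 : b + 20 ≤ m := by omega
      have hb' : (20 : ℝ) ≤ (m : ℝ) - b := by
        have : ((b + 20 : ℕ) : ℝ) ≤ (m : ℝ) := by exact_mod_cast hb2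
        push_cast at this
        linarith
      have h5 := mul_le_mul_of_nonneg_left hb' (show (0 : ℝ) ≤ 10 - KK by linarith)
      push_cast
      linarith
    obtain ⟨q, hq, hqd⟩ := factor hlow htay hdeg
    refine ⟨(1 - X) * q, ?_, ?_, ?_⟩
    · refine (natDegree_mul_le).trans ?_
      have : (1 - X : ℚ[X]).natDegree ≤ 1 := by
        refine (natDegree_sub_le _ _).trans ?_
        simp
      omega
    · intro t _
      have e : (1 - X : ℚ[X]) ^ (m - 19) * q = (1 - X) ^ (m - 2 * 10) * ((1 - X) * q) := by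
        have : m - 19 = (m - 2 * 10) + 1 := by omega
        rw [this, pow_succ]
        ring
      rw [← e]
      exact hcoef _ hq t
    · intro _
      simp
  · have htay : ∀ b < m - 2 * i, (taylor 1 (ph f (-(i : ℤ)))).coeff b = 0 := by
      intro b hb
      rw [ph_taylor]
      refine tc_zero hH (by omega) ?_
      have hb2 : b + (2 * i + 1) ≤ m := by omega
      have hb' : (2 : ℝ) * i + 1 ≤ (m : ℝ) - b := by
        have : ((b + (2 * i + 1) : ℕ) : ℝ) ≤ (m : ℝ) := by exact_mod_cast hb2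
        push_cast at this
        linarith
      have h5 := mul_le_mul_of_nonneg_left hb' (show (0 : ℝ) ≤ 10 - KK by linarith)
      have h6 : 0 ≤ (i : ℝ) * (19 - 2 * KK) := mul_nonneg (Nat.cast_nonneg i) (by linarith)
      push_cast
      nlinarith
    obtain ⟨q, hq, hqd⟩ := factor hlow htay hdeg
    refine ⟨q, by omega, fun t _ => hcoef _ hq t, fun h => absurd h hiN⟩

/-- column 0 -/
theorem col_apex (hf : (↑f.support : Set (ℤ × ℤ)) ⊆ AB h) :
    colp f ((0 : ℕ) : ℤ) = C (f (0, (h : ℤ))) * X ^ h := by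
  obtain ⟨k1, k2, k3⟩ := KK_bounds
  have hpos : ∀ p ∈ f.support, 0 ≤ p.2 := fun p hp => (supp hf hp).1
  ext j
  rw [colp_coeff f hpos, coeff_C_mul, coeff_X_pow]
  split_ifs with hj
  · rw [hj, mul_one]
    rfl
  · rw [mul_zero]
    by_contra hne
    have hp : (((0 : ℕ) : ℤ), (j : ℤ)) ∈ f.support := Finsupp.mem_support_iff.2 hne
    obtain ⟨-, -, h3, h4, -⟩ := supp hf hp
    simp only [Nat.cast_zero, Int.cast_zero, Int.cast_natCast, Nat.cast_le] at h3 h4
    have h5 : (j : ℝ) < h := by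
      have : j < h := by omega
      exact_mod_cast this
    nlinarith

theorem column (hd1 : KK * h - (KK + 1) * m < KK - 9)
    (hf : (↑f.support : Set (ℤ × ℤ)) ⊆ AB h)
    (hH : ∀ b < m, ∀ c : ℤ, ⌊KK * h - (KK + 1) * (b : ℝ)⌋ < c + 11 * ((m : ℤ) - b) →
      tc f c b = 0) {t : ℕ} (ht : t ≤ 10) (hh : 30 ≤ h) :
    ∃ g : Polynomial ℚ, g.natDegree ≤ t - 1 ∧
      ∀ i : ℕ, wc f (t : ℤ) (t + i) = ((1 + X) ^ (kap h t) * g).coeff i := by
  obtain ⟨k1, k2, k3⟩ := KK_bounds
  have hpos : ∀ p ∈ f.support, 0 ≤ p.2 := fun p hp => (supp hf hp).1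
  rcases Nat.eq_zero_or_pos t with h0 | h0
  · subst h0
    refine ⟨C (f (0, (h : ℤ))), by rw [natDegree_C], fun i => ?_⟩
    have hk : kap h 0 = h := by unfold kap; simp
    rw [← colp_taylor, col_apex hf, taylor_mul, taylor_pow, taylor_C, taylor_X, zero_add, hk,
      C_1, add_comm X, mul_comm]
  · -- the lowest exponent and the degree
    obtain ⟨M, hlow, hdeg, hM⟩ : ∃ M, (∀ j < kap h t, (colp f (t : ℤ)).coeff j = 0) ∧
        (colp f (t : ℤ)).natDegree ≤ M ∧ M - (kap h t + t) ≤ t - 1 := by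
      by_cases h10 : t = 10
      · subst h10
        have hk : kap h 10 = h - 21 := if_neg (by norm_num)
        refine ⟨h - 2, ?_, ?_, by omega⟩
        · intro j hj
          rw [colp_coeff f hpos]
          by_contra hne
          have hp : (((10 : ℕ) : ℤ), (j : ℤ)) ∈ f.support := Finsupp.mem_support_iff.2 hne
          obtain ⟨-, -, h3, h4, -⟩ := supp hf hp
          simp only [Int.cast_natCast] at h4
          have h5 : (22 : ℝ) ≤ (h : ℝ) - j := by
            have : j + 22 ≤ h := by omega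
            have : ((j + 22 : ℕ) : ℝ) ≤ h := by exact_mod_cast this
            push_cast at this
            linarith
          push_cast at h4
          nlinarith
        · rw [natDegree_le_iff_coeff_eq_zero]
          intro j hj
          rw [colp_coeff f hpos]
          by_contra hne
          have hp : (((10 : ℕ) : ℤ), (j : ℤ)) ∈ f.support := Finsupp.mem_support_iff.2 hne
          obtain ⟨-, -, h3, -, h5⟩ := supp hf hp
          simp only [Int.cast_natCast] at h5
          have h6 : (h : ℝ) - j ≤ 1 := by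
            have : h ≤ j + 1 := by omega
            have : (h : ℝ) ≤ ((j + 1 : ℕ) : ℝ) := by exact_mod_cast this
            push_cast at this
            linarith
          push_cast at h5
          nlinarith
      · have hk : kap h t = h - 2 * t := if_pos (by omega)
        refine ⟨h - 1, ?_, ?_, by omega⟩
        · intro j hj
          rw [colp_coeff f hpos]
          by_contra hne
          have hp : ((t : ℤ), (j : ℤ)) ∈ f.support := Finsupp.mem_support_iff.2 hne
          obtain ⟨-, -, h3, h4, -⟩ := supp hf hp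
          simp only [Int.cast_natCast] at h4
          have h5 : (2 : ℝ) * t + 1 ≤ (h : ℝ) - j := by
            have : j + (2 * t + 1) ≤ h := by omega
            have : ((j + (2 * t + 1) : ℕ) : ℝ) ≤ h := by exact_mod_cast this
            push_cast at this
            linarith
          have h6 : (t : ℝ) ≤ 9 := by
            have : t ≤ 9 := by omega
            exact_mod_cast this
          nlinarith
        · rw [natDegree_le_iff_coeff_eq_zero]
          intro j hj
          rw [colp_coeff f hpos]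
          by_contra hne
          have hp : ((t : ℤ), (j : ℤ)) ∈ f.support := Finsupp.mem_support_iff.2 hne
          obtain ⟨-, -, h3, -, h5⟩ := supp hf hp
          simp only [Int.cast_natCast] at h5
          have h6 : (h : ℝ) ≤ j := by
            have : h ≤ j := by omega
            exact_mod_cast this
          have h7 : (1 : ℝ) ≤ t := by exact_mod_cast h0
          nlinarith
    have htay : ∀ b < t, (taylor 1 (colp f (t : ℤ))).coeff b = 0 := by
      intro b hb
      rw [colp_taylor]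
      exact wc_low hd1 hf hH (by exact_mod_cast hb)
    obtain ⟨q, hq, hqd⟩ := factor hlow htay hdeg
    have hT : taylor 1 (colp f (t : ℤ)) =
        X ^ t * ((1 + X) ^ (kap h t) * ((-1) ^ t * taylor 1 q)) := by
      rw [hq, taylor_mul, taylor_mul, taylor_pow, taylor_pow, taylor_X, map_sub, taylor_one,
        taylor_X]
      have e : (C 1 - (X + C 1) : ℚ[X]) = -1 * X := by ring
      rw [e, mul_pow, C_1, add_comm X]
      ring
    refine ⟨(-1) ^ t * taylor 1 q, ?_, fun i => ?_⟩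
    · have e : ((-1 : ℚ[X]) ^ t) = C ((-1) ^ t) := by
        rw [C_pow, C_neg, C_1]
      rw [e]
      refine (natDegree_C_mul_le _ _).trans ?_
      rw [natDegree_taylor]
      omega
    · rw [← colp_taylor, hT, add_comm t i, coeff_X_pow_mul]

end

theorem apexzero' {h m : ℕ} (hm : 1 ≤ m) (hd0 : 0 ≤ KK * h - (KK + 1) * m)
    (hd1 : KK * h - (KK + 1) * m < KK - 9)
    {f : (ℤ × ℤ) →₀ ℚ} (hf : (↑f.support : Set (ℤ × ℤ)) ⊆ AB h)
    (hH : ∀ b < m, ∀ c : ℤ, ⌊KK * h - (KK + 1) * (b : ℝ)⌋ < c + 11 * ((m : ℤ) - b) →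
      tc f c b = 0) :
    f (0, (h : ℤ)) = 0 := by
  obtain ⟨k1, k2, k3⟩ := KK_bounds
  have hm' : (1 : ℝ) ≤ m := by exact_mod_cast hm
  have hhm : m < h := by
    by_contra hc
    push Not at hc
    have : (h : ℝ) ≤ m := by exact_mod_cast hc
    nlinarith
  obtain ⟨e, he⟩ : ∃ e, h = m + e := ⟨h - m, by omega⟩
  have heR : (h : ℝ) = m + e := by rw [he]; push_cast; ring
  have he1 : 1 ≤ e := by omega
  have hKe1 : (m : ℝ) ≤ KK * e := by rw [heR] at hd0; linarith
  have hKe2 : KK * e < m + (KK - 9) := by rw [heR] at hd1; linarith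
  have he' : (1 : ℝ) ≤ e := by exact_mod_cast he1
  have hm1 : 9 * e ≤ m := by
    have : ((9 * e : ℕ) : ℝ) ≤ m := by
      push_cast
      nlinarith
    exact_mod_cast this
  have hm2 : m ≤ 10 * e := by
    have : (m : ℝ) ≤ ((10 * e : ℕ) : ℝ) := by
      push_cast
      nlinarith
    exact_mod_cast this
  have he3 : 3 ≤ e := by
    by_contra hc
    have : e = 1 ∨ e = 2 := by omega
    rcases this with h1 | h1
    · rw [h1] at hKe1 hKe2
      norm_num at hKe1 hKe2
      have h2 : (m : ℝ) < 10 := by linarith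
      have h3 : (9 : ℝ) < m := by linarith
      have h4 : m < 10 := by exact_mod_cast h2
      have h5 : 9 < m := by exact_mod_cast h3
      omega
    · rw [h1] at hKe1 hKe2
      norm_num at hKe1 hKe2
      have h2 : (m : ℝ) < 19 := by linarith
      have h3 : (18 : ℝ) < m := by linarith
      have h4 : m < 19 := by exact_mod_cast h2
      have h5 : 18 < m := by exact_mod_cast h3
      omega
  obtain ⟨b', hb1, hb2⟩ := exists_sol10 he3 he hm1 hm2
  have key := core_of_sol (m := m) (N := 10) (kap h) (fun t i => wc f (t : ℤ) (t + i)) b'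
    (fun i hi => row hd1 hf hH (by omega) hi)
    (fun t ht => by
      obtain ⟨g, hg1, hg2⟩ := column hd1 hf hH (t := t) ht (by omega)
      exact ⟨g, hg1, fun i _ => hg2 i⟩)
    hb1 hb2
  have h9 := colp_taylor f ((0 : ℕ) : ℤ) 0
  simp only [add_zero] at key
  rw [key, col_apex hf, taylor_coeff_zero] at h9
  simpa using h9

end Pool.Agent.E8helper39.AXD
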