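import Pool.Agent.E8helper39.AX_C2

/-! Project AX, `N = 10`: the test solution. -/

set_option autoImplicit false

open Polynomial

namespace Pool.Agent.E8helper39.AXD

open Pool.Agent.E8helper39.AX (CC CC_mul CC_eq U V U_spec V_spec hQ1 hQ2 shift pol pol_coeff pol_deg
  pol_eval mulL powL eqL pol_eqL pol_mulL pol_powL colL rowL RR coeff_RR tabP gabP tabQ gabQ)

noncomputable section

/-- A pair of compatible structures up to `10`. -/
structure Good (m h : ℕ) (a c : ℚ) (R G : PowerSeries ℚ[X]) : Prop where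
  R0 : PowerSeries.coeff 0 R = 1
  G0 : PowerSeries.coeff 0 G = 1
  dR : ∀ i ≤ 9, (PowerSeries.coeff i R).natDegree ≤ i
  dR10 : ∀ k, 11 < k → (PowerSeries.coeff 10 R).coeff k = 0
  cR10 : (PowerSeries.coeff 10 R).coeff 11 = -a
  dG : ∀ t ≤ 10, (PowerSeries.coeff t G).natDegree ≤ t - 1
  cG10 : (PowerSeries.coeff 10 G).coeff 9 = c
  cmp : ∀ i ≤ 10, ∀ t ≤ 10, PowerSeries.coeff t (CC (1 - PowerSeries.X) U m R i) =
    PowerSeries.coeff i (CC (1 + PowerSeries.X) V h G t)

theorem coeff10 {R R' : PowerSeries ℚ[X]} (h0 : PowerSeries.coeff 0 R = 1)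
    (h0' : PowerSeries.coeff 0 R' = 1) (k : ℕ)
    (hmid : ∀ j, 1 ≤ j → j ≤ 9 →
      (PowerSeries.coeff j R * PowerSeries.coeff (10 - j) R').coeff k = 0) :
    (PowerSeries.coeff 10 (R * R')).coeff k =
      (PowerSeries.coeff 10 R').coeff k + (PowerSeries.coeff 10 R).coeff k := by
  rw [PowerSeries.coeff_mul, Finset.Nat.sum_antidiagonal_eq_sum_range_succ_mk,
    Finset.sum_range_succ, Finset.sum_range_succ']
  simp only [Nat.sub_zero, Nat.sub_self, h0, h0', mul_one, one_mul, coeff_add, finsetSum_coeff]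
  rw [Finset.sum_eq_zero, zero_add]
  intro j hj
  have := Finset.mem_range.mp hj
  exact hmid (j + 1) (by omega) (by omega)

theorem Good.mul {m h m' h' : ℕ} {a c a' c' : ℚ} {R G R' G' : PowerSeries ℚ[X]}
    (H : Good m h a c R G) (H' : Good m' h' a' c' R' G') :
    Good (m + m') (h + h') (a + a') (c + c') (R * R') (G * G') := by
  have hmR : ∀ k, 10 < k → ∀ j, 1 ≤ j → j ≤ 9 →
      (PowerSeries.coeff j R * PowerSeries.coeff (10 - j) R').coeff k = 0 := by
    intro k hk j h1 h2
    apply coeff_eq_zero_of_natDegree_lt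
    refine lt_of_le_of_lt natDegree_mul_le ?_
    have := H.dR j (by omega)
    have := H'.dR (10 - j) (by omega)
    omega
  refine ⟨?_, ?_, ?_, ?_, ?_, ?_, ?_, ?_⟩
  · rw [PowerSeries.coeff_mul]
    simp [H.R0, H'.R0]
  · rw [PowerSeries.coeff_mul]
    simp [H.G0, H'.G0]
  · intro i hi
    rw [PowerSeries.coeff_mul]
    refine Polynomial.natDegree_sum_le_of_forall_le _ _ fun p hp => ?_
    have h2 : p.1 + p.2 = i := Finset.HasAntidiagonal.mem_antidiagonal.mp hp
    refine Polynomial.natDegree_mul_le.trans ?_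
    have := H.dR p.1 (by omega)
    have := H'.dR p.2 (by omega)
    omega
  · intro k hk
    rw [coeff10 H.R0 H'.R0 k (hmR k (by omega)), H.dR10 k hk, H'.dR10 k hk, add_zero]
  · rw [coeff10 H.R0 H'.R0 11 (hmR 11 (by omega)), H.cR10, H'.cR10]
    ring
  · intro i hi
    rw [PowerSeries.coeff_mul]
    refine Polynomial.natDegree_sum_le_of_forall_le _ _ fun p hp => ?_
    have h2 : p.1 + p.2 = i := Finset.HasAntidiagonal.mem_antidiagonal.mp hp
    refine Polynomial.natDegree_mul_le.trans ?_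
    have := H.dG p.1 (by omega)
    have := H'.dG p.2 (by omega)
    omega
  · rw [coeff10 H.G0 H'.G0 9, H.cG10, H'.cG10]
    · ring
    · intro j h1 h2
      apply coeff_eq_zero_of_natDegree_lt
      refine lt_of_le_of_lt natDegree_mul_le ?_
      have := H.dG j (by omega)
      have := H'.dG (10 - j) (by omega)
      omega
  · intro i hi t ht
    rw [CC_mul, CC_mul, map_sum, map_sum]
    simp_rw [PowerSeries.coeff_mul]
    rw [Finset.sum_comm]
    refine Finset.sum_congr rfl fun p hp => Finset.sum_congr rfl fun r hr => ?_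
    have h2 : p.1 + p.2 = t := Finset.HasAntidiagonal.mem_antidiagonal.mp hp
    have h3 : r.1 + r.2 = i := Finset.HasAntidiagonal.mem_antidiagonal.mp hr
    rw [H.cmp r.1 (by omega) p.1 (by omega), H'.cmp r.2 (by omega) p.2 (by omega)]

theorem Good.one : Good 0 0 0 0 1 1 := by
  refine ⟨?_, ?_, ?_, ?_, ?_, ?_, ?_, ?_⟩
  · simp
  · simp
  · intro i _
    rw [PowerSeries.coeff_one]
    split_ifs <;> simp
  · intro k _
    rw [PowerSeries.coeff_one]
    simp
  · rw [PowerSeries.coeff_one]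
    simp
  · intro i _
    rw [PowerSeries.coeff_one]
    split_ifs <;> simp
  · rw [PowerSeries.coeff_one]
    simp
  · intro i _ t _
    unfold Pool.Agent.E8helper39.AX.CC
    rw [PowerSeries.coeff_one, PowerSeries.coeff_one]
    by_cases hi : i = 0
    · by_cases ht : t = 0
      · subst hi; subst ht; simp
      · subst hi
        simp [ht, PowerSeries.coeff_one]
    · by_cases ht : t = 0
      · subst ht
        simp [hi, PowerSeries.coeff_one]
      · simp [hi, ht]

theorem Good.pow {m h : ℕ} {a c : ℚ} {R G : PowerSeries ℚ[X]} (H : Good m h a c R G) (n : ℕ) :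
    Good (n * m) (n * h) (n * a) (n * c) (R ^ n) (G ^ n) := by
  induction n with
  | zero => simpa using Good.one
  | succ n ih =>
    have := ih.mul H
    rw [pow_succ, pow_succ, Nat.succ_mul, Nat.succ_mul]
    push_cast
    rw [add_mul, add_mul, one_mul, one_mul]
    exact this

/-- the whole numerical check -/
def chk (m : ℕ) (a c : ℤ) (T S : List (List ℤ)) : Bool :=
  ((List.range 11).all fun i =>
    eqL (mulL (powL [1, -1] m) (T.getD i [])) (mulL (powL [1, -1] (2 * i)) (colL m i)) &&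
    eqL (mulL (powL [1, 1] (m + 1)) (S.getD i [])) (mulL (powL [1, 1] (2 * i)) (rowL m i)) &&
    (decide (9 < i) || decide ((T.getD i []).length ≤ i + 1)) &&
    decide ((S.getD i []).length ≤ i - 1 + 1) &&
    ((List.range 11).all fun t => (colL m i).getD t 0 == (rowL m t).getD i 0)) &&
  decide ((T.getD 10 []).length ≤ 12) && decide ((T.getD 10 []).getD 11 0 = -a) &&
  decide ((S.getD 10 []).getD 9 0 = c) && decide (T.getD 0 [] = [1]) && decide (S.getD 0 [] = [1])

theorem good_of (m : ℕ) (a c : ℤ) (T S : List (List ℤ)) (h : chk m a c T S = true) :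
    Good m (m + 1) a c (RR T) (RR S) := by
  unfold chk at h
  simp only [Bool.and_eq_true, Bool.or_eq_true, List.all_eq_true, List.mem_range,
    decide_eq_true_eq, beq_iff_eq] at h
  obtain ⟨⟨⟨⟨⟨h1, hT⟩, hT11⟩, hS9⟩, hT0⟩, hS0⟩ := h
  have e1 : pol [1, -1] = 1 - X := by
    simp [pol]
    ring
  have e2 : pol [1, 1] = 1 + X := by
    simp [pol]
  have e3 : pol [1] = 1 := by
    simp [pol]
  refine ⟨?_, ?_, ?_, ?_, ?_, ?_, ?_, ?_⟩
  · rw [coeff_RR, hT0, e3]
  · rw [coeff_RR, hS0, e3]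
  · intro i hi
    rw [coeff_RR]
    rcases (h1 i (by omega)).1.1.2 with h2 | h2
    · omega
    · exact (pol_deg _).trans (by omega)
  · intro k hk
    rw [coeff_RR, pol_coeff, List.getD_eq_default]
    · simp
    · omega
  · rw [coeff_RR, pol_coeff, hT11]
    push_cast
    ring
  · intro i hi
    rw [coeff_RR]
    have := (h1 i (by omega)).1.2
    exact (pol_deg _).trans (by omega)
  · rw [coeff_RR, pol_coeff, hS9]
  · intro i hi j hj
    rw [CC_eq (1 - X) (1 - PowerSeries.X) U hQ1 U_spec m i (RR T) (pol (colL m i)),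
      CC_eq (1 + X) (1 + PowerSeries.X) V hQ2 V_spec (m + 1) j (RR S) (pol (rowL m j))]
    · rw [Polynomial.coeff_coe, Polynomial.coeff_coe, pol_coeff, pol_coeff,
        (h1 i (by omega)).2 j (by omega)]
    · rw [coeff_RR]
      have := pol_eqL (h1 j (by omega)).1.1.1.2
      rw [pol_mulL, pol_mulL, pol_powL, pol_powL, e2] at this
      exact this
    · rw [coeff_RR]
      have := pol_eqL (h1 i (by omega)).1.1.1.1
      rw [pol_mulL, pol_mulL, pol_powL, pol_powL, e1] at this
      exact this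

def tabP' : List (List ℤ) := tabP ++ [powL [1, -1] 11]
def gabP' : List (List ℤ) := gabP ++ [[]]
def tabQ' : List (List ℤ) :=
  tabQ ++ [[11, -110, 495, -1320, 2310, -2772, 2310, -1320, 495, -110, 11]]
def gabQ' : List (List ℤ) := gabQ ++ [[1, 9, 36, 84, 126, 126, 84, 36, 9, 1]]

theorem good_P : Good 9 10 (1 : ℤ) (0 : ℤ) (RR tabP') (RR gabP') :=
  good_of 9 1 0 tabP' gabP' (by decide +kernel)

theorem good_Q : Good 10 11 (0 : ℤ) (1 : ℤ) (RR tabQ') (RR gabQ') :=
  good_of 10 0 1 tabQ' gabQ' (by decide +kernel)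

/-- value at `1` -/
def E (i : ℕ) (R : PowerSeries ℚ[X]) : ℚ := (PowerSeries.coeff i R).eval 1

theorem E_mul (i : ℕ) (R R' : PowerSeries ℚ[X]) :
    E i (R * R') = ∑ p ∈ Finset.HasAntidiagonal.antidiagonal i, E p.1 R * E p.2 R' := by
  unfold E
  rw [PowerSeries.coeff_mul, Polynomial.eval_finsetSum]
  simp_rw [Polynomial.eval_mul]

theorem E_ge {i j : ℕ} {R R' : PowerSeries ℚ[X]} (h : ∀ i, 0 ≤ E i R) (h' : ∀ i, 0 ≤ E i R') :
    E i R * E j R' ≤ E (i + j) (R * R') := by
  rw [E_mul]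
  exact Finset.single_le_sum (f := fun p : ℕ × ℕ => E p.1 R * E p.2 R')
    (fun p _ => mul_nonneg (h _) (h' _)) (a := (i, j))
    (Finset.HasAntidiagonal.mem_antidiagonal.mpr rfl)

theorem E_ge2 {R R' : PowerSeries ℚ[X]} (h : ∀ i, 0 ≤ E i R) (h' : ∀ i, 0 ≤ E i R') :
    E 10 R * E 0 R' + E 6 R * E 4 R' ≤ E 10 (R * R') := by
  rw [E_mul]
  have h1 : ({(10, 0), (6, 4)} : Finset (ℕ × ℕ)) ⊆ Finset.HasAntidiagonal.antidiagonal 10 := by
    intro p hp
    simp only [Finset.mem_insert, Finset.mem_singleton] at hp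
    rcases hp with hp | hp <;>
      · rw [hp, Finset.HasAntidiagonal.mem_antidiagonal]
        norm_num
  have h2 := Finset.sum_le_sum_of_subset_of_nonneg (f := fun p : ℕ × ℕ => E p.1 R * E p.2 R') h1
    (fun p _ _ => mul_nonneg (h _) (h' _))
  rw [Finset.sum_pair (by decide)] at h2
  exact h2

/-- lower bounds for one factor -/
structure B (R : PowerSeries ℚ[X]) : Prop where
  nn : ∀ i, 0 ≤ E i R
  e0 : 1 ≤ E 0 R
  e3 : 20 ≤ E 3 R
  e4 : 5 ≤ E 4 R

/-- lower bounds for `n` factors -/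
structure W (n : ℕ) (R : PowerSeries ℚ[X]) : Prop where
  nn : ∀ i, 0 ≤ E i R
  e0 : 1 ≤ E 0 R
  e3 : 1 ≤ n → 20 ≤ E 3 R
  e6 : 2 ≤ n → 400 ≤ E 6 R
  e10 : 3 ≤ n → (n : ℚ) + 1 ≤ E 10 R

theorem W.step {n : ℕ} {R R' : PowerSeries ℚ[X]} (H : W n R) (H' : B R') :
    W (n + 1) (R * R') := by
  have h0 := H.e0
  have h0' := H'.e0
  refine ⟨?_, ?_, ?_, ?_, ?_⟩
  · intro i
    rw [E_mul]
    exact Finset.sum_nonneg fun p _ => mul_nonneg (H.nn _) (H'.nn _)
  · have := E_ge (i := 0) (j := 0) H.nn H'.nn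
    simp only [Nat.add_zero] at this
    nlinarith
  · intro _
    have := E_ge (i := 0) (j := 3) H.nn H'.nn
    rw [Nat.zero_add] at this
    have h3 := H'.e3
    nlinarith
  · intro hn
    have := E_ge (i := 3) (j := 3) H.nn H'.nn
    have h3 := H'.e3
    have h3' := H.e3 (by omega)
    norm_num at this
    nlinarith
  · intro hn
    have := E_ge2 H.nn H'.nn
    have h4 := H'.e4
    have h6 := H.e6 (by omega)
    have h10 := H.nn 10
    have hp : 2000 ≤ E 6 R * E 4 R' := by nlinarith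
    have hq : E 10 R ≤ E 10 R * E 0 R' := by nlinarith
    rcases Nat.eq_or_lt_of_le (show 2 ≤ n by omega) with h2 | h2
    · subst h2
      push_cast
      linarith
    · have := H.e10 (by omega)
      push_cast
      linarith

theorem W.one : W 0 1 := by
  refine ⟨?_, ?_, ?_, ?_, ?_⟩
  · intro i
    unfold E
    rw [PowerSeries.coeff_one]
    split_ifs <;> simp
  · unfold E
    simp
  · intro h
    omega
  · intro h
    omega
  · intro h
    omega

theorem W.powP {R : PowerSeries ℚ[X]} (H : B R) {n : ℕ} {S : PowerSeries ℚ[X]} (hS : W n S)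
    (k : ℕ) : W (n + k) (S * R ^ k) := by
  induction k with
  | zero => simpa using hS
  | succ k ih =>
    rw [pow_succ, ← mul_assoc]
    exact ih.step H

theorem B_of (T : List (List ℤ))
    (h : (((List.range T.length).all fun i => decide (0 ≤ (T.getD i []).sum)) &&
      decide (1 ≤ (T.getD 0 []).sum) && decide (20 ≤ (T.getD 3 []).sum) &&
      decide (5 ≤ (T.getD 4 []).sum)) = true) : B (RR T) := by
  simp only [Bool.and_eq_true, List.all_eq_true, List.mem_range, decide_eq_true_eq] at h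
  obtain ⟨⟨⟨h1, h2⟩, h3⟩, h4⟩ := h
  refine ⟨?_, ?_, ?_, ?_⟩
  · intro i
    unfold E
    rw [coeff_RR, pol_eval]
    by_cases hi : i < T.length
    · exact_mod_cast h1 i hi
    · rw [List.getD_eq_default _ _ (by omega)]
      simp
  · unfold E
    rw [coeff_RR, pol_eval]
    exact_mod_cast h2
  · unfold E
    rw [coeff_RR, pol_eval]
    exact_mod_cast h3
  · unfold E
    rw [coeff_RR, pol_eval]
    exact_mod_cast h4

theorem B_P : B (RR tabP') := B_of tabP' (by decide +kernel)
theorem B_Q : B (RR tabQ') := B_of tabQ' (by decide +kernel)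

/-- the exponents of the rows -/
def kap (h t : ℕ) : ℕ := if t ≤ 9 then h - 2 * t else h - 21

theorem exists_sol10 {m h e : ℕ} (he : 3 ≤ e) (hh : h = m + e) (hm1 : 9 * e ≤ m)
    (hm2 : m ≤ 10 * e) : ∃ b : ℕ → ℕ → ℚ,
    (∀ i ≤ 10, ∃ r : ℚ[X], r.natDegree ≤ i ∧
      (∀ t ≤ 10, b t i = ((1 - X) ^ (m - 2 * i) * r).coeff t) ∧ (i = 10 → r.eval 1 ≠ 0)) ∧
    (∀ t ≤ 10, ∃ g : ℚ[X], g.natDegree ≤ t - 1 ∧
      ∀ i ≤ 10, b t i = ((1 + X) ^ (kap h t) * g).coeff i) := by
  obtain ⟨c, hc⟩ : ∃ c, m = 9 * e + c := ⟨m - 9 * e, by omega⟩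
  obtain ⟨a, ha⟩ : ∃ a, e = a + c := ⟨e - c, by omega⟩
  have hG := (good_P.pow a).mul (good_Q.pow c)
  have hW := W.powP B_Q (W.powP B_P W.one a) c
  rw [one_mul, zero_add] at hW
  have em : a * 9 + c * 10 = m := by omega
  have eh : a * 10 + c * 11 = h := by omega
  have ea : (a : ℚ) * ((1 : ℤ) : ℚ) + c * ((0 : ℤ) : ℚ) = a := by push_cast; ring
  have ec : (a : ℚ) * ((0 : ℤ) : ℚ) + c * ((1 : ℤ) : ℚ) = c := by push_cast; ring
  rw [em, eh, ea, ec] at hG
  set R := RR tabP' ^ a * RR tabQ' ^ c with hR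
  set G := RR gabP' ^ a * RR gabQ' ^ c with hGd
  -- the columns
  let ρ : ℕ → ℚ[X] := fun i => if i = 10 then
    PowerSeries.coeff 10 R + C (a : ℚ) * X ^ 11 - C (c : ℚ) * X ^ 10 else PowerSeries.coeff i R
  have hρ : ∀ i, i ≠ 10 → ρ i = PowerSeries.coeff i R := fun i hi => if_neg hi
  have hρ10 : ρ 10 = PowerSeries.coeff 10 R + C (a : ℚ) * X ^ 11 - C (c : ℚ) * X ^ 10 :=
    if_pos rfl
  have hcmp : ∀ i ≤ 10, ∀ t ≤ 10, ((1 - X) ^ (m - 2 * i) * PowerSeries.coeff i R : ℚ[X]).coeff t =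
      ((1 + X) ^ (h - 2 * t) * PowerSeries.coeff t G : ℚ[X]).coeff i := by
    intro i hi t ht
    have h1 := hG.cmp i hi t ht
    rw [shift (1 - X) _ U hQ1 U_spec m i R (by omega),
      shift (1 + X) _ V hQ2 V_spec h t G (by omega), Polynomial.coeff_coe,
      Polynomial.coeff_coe] at h1
    exact h1
  -- column 10
  have hcol10 : ∀ t ≤ 10, ((1 - X) ^ (m - 2 * 10) * ρ 10 : ℚ[X]).coeff t =
      ((1 - X) ^ (m - 2 * 10) * PowerSeries.coeff 10 R : ℚ[X]).coeff t -
        (if t = 10 then (c : ℚ) else 0) := by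
    intro t ht
    rw [hρ10]
    have e1 : ((1 - X) ^ (m - 2 * 10) *
        (PowerSeries.coeff 10 R + C (a : ℚ) * X ^ 11 - C (c : ℚ) * X ^ 10) : ℚ[X]) =
        (1 - X) ^ (m - 2 * 10) * PowerSeries.coeff 10 R +
          (C (a : ℚ) * (1 - X) ^ (m - 2 * 10)) * X ^ 11 -
          (C (c : ℚ) * (1 - X) ^ (m - 2 * 10)) * X ^ 10 := by ring
    rw [e1, coeff_sub, coeff_add, coeff_mul_X_pow', coeff_mul_X_pow', if_neg (by omega), add_zero]
    by_cases h10 : t = 10
    · subst h10
      rw [if_pos le_rfl, if_pos rfl, Nat.sub_self, coeff_C_mul, coeff_zero_eq_eval_zero]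
      simp
    · rw [if_neg (by omega), if_neg h10]
  refine ⟨fun t i => ((1 - X) ^ (m - 2 * i) * ρ i : ℚ[X]).coeff t, ?_, ?_⟩
  · intro i hi
    refine ⟨ρ i, ?_, fun t _ => rfl, ?_⟩
    · by_cases h10 : i = 10
      · subst h10
        rw [hρ10, natDegree_le_iff_coeff_eq_zero]
        intro k hk
        rw [coeff_sub, coeff_add, coeff_C_mul_X_pow, coeff_C_mul_X_pow]
        rw [if_neg (show ¬ k = 10 by omega)]
        by_cases h11 : k = 11
        · subst h11
          rw [if_pos rfl, hG.cR10]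
          ring
        · rw [if_neg h11, hG.dR10 k (by omega)]
          ring
      · rw [hρ i h10]
        exact hG.dR i (by omega)
    · intro h10
      subst h10
      rw [hρ10]
      have h1 := hW.e10 (by omega)
      unfold E at h1
      simp only [eval_sub, eval_add, eval_mul, eval_C, eval_pow, eval_X, one_pow, mul_one]
      push_cast at h1
      have ha0 : (0 : ℚ) ≤ a := Nat.cast_nonneg a
      have : 0 < (PowerSeries.coeff 10 R).eval 1 + (a : ℚ) - c := by linarith
      exact this.ne'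
  · intro t ht
    by_cases h10 : t = 10
    · subst h10
      refine ⟨(1 + X) * PowerSeries.coeff 10 G - C (c : ℚ) * X ^ 10, ?_, ?_⟩
      · rw [natDegree_le_iff_coeff_eq_zero]
        have hd : ∀ k, 9 < k → (PowerSeries.coeff 10 G).coeff k = 0 := by
          have := hG.dG 10 le_rfl
          rw [natDegree_le_iff_coeff_eq_zero] at this
          intro k hk
          exact this k (by omega)
        intro k hk
        obtain ⟨j, rfl⟩ : ∃ j, k = j + 1 := ⟨k - 1, by omega⟩
        rw [coeff_sub, add_mul, one_mul, coeff_add, coeff_X_mul, coeff_C_mul_X_pow,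
          hd (j + 1) (by omega)]
        by_cases h9 : j = 9
        · subst h9
          rw [if_pos rfl, hG.cG10]
          ring
        · rw [if_neg (by omega), hd j (by omega)]
          ring
      · intro i hi
        have hk : kap h 10 = h - 21 := if_neg (by norm_num)
        rw [hk]
        have e2 : ((1 + X) ^ (h - 21) *
            ((1 + X) * PowerSeries.coeff 10 G - C (c : ℚ) * X ^ 10) : ℚ[X]) =
            (1 + X) ^ (h - 2 * 10) * PowerSeries.coeff 10 G -
              (C (c : ℚ) * (1 + X) ^ (h - 21)) * X ^ 10 := by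
          have : h - 2 * 10 = (h - 21) + 1 := by omega
          rw [this, pow_succ]
          ring
        rw [e2, coeff_sub, ← hcmp i hi 10 le_rfl, coeff_mul_X_pow']
        beta_reduce
        by_cases hi10 : i = 10
        · subst hi10
          rw [hcol10 10 le_rfl, if_pos rfl, if_pos le_rfl, Nat.sub_self, coeff_C_mul,
            coeff_zero_eq_eval_zero ((1 + X) ^ (h - 21) : ℚ[X])]
          simp
        · rw [hρ i hi10, if_neg (by omega), sub_zero]
    · refine ⟨PowerSeries.coeff t G, hG.dG t ht, fun i hi => ?_⟩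
      have hk : kap h t = h - 2 * t := if_pos (by omega)
      rw [hk, ← hcmp i hi t ht]
      beta_reduce
      by_cases hi10 : i = 10
      · subst hi10
        rw [hcol10 t ht, if_neg h10, sub_zero]
      · rw [hρ i hi10]

end

end Pool.Agent.E8helper39.AXD
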